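import Mathlib

set_option autoImplicit false

/-!
# Light rays of the integer Minkowski space, lifted and projected to three dimensions
-/

namespace Pool.Agent.H680R3.LP

open Polynomial

abbrev E3 := EuclideanSpace ℝ (Fin 3)

/-- first functional -/
noncomputable def lam (τ : ℝ) (d : Fin 4 → ℤ) : ℝ := d 0 + τ * d 2 + τ ^ 2 * d 3
/-- second functional -/
noncomputable def mu (τ : ℝ) (d : Fin 4 → ℤ) : ℝ := d 1 + τ ^ 3 * d 2 + τ ^ 5 * d 3

theorem coeffs_zero {τ : ℝ} (hτ : Transcendental ℤ τ) (c0 c1 c2 c3 c5 c6 : ℤ)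
    (h : (c0 : ℝ) + c1 * τ + c2 * τ ^ 2 + c3 * τ ^ 3 + c5 * τ ^ 5 + c6 * τ ^ 6 = 0) :
    c0 = 0 ∧ c1 = 0 ∧ c2 = 0 ∧ c3 = 0 ∧ c5 = 0 ∧ c6 = 0 := by
  set p : ℤ[X] := monomial 0 c0 + monomial 1 c1 + monomial 2 c2 + monomial 3 c3
    + monomial 5 c5 + monomial 6 c6 with hp
  have h0 : p = 0 := by
    by_contra hne
    apply hτ
    refine ⟨p, hne, ?_⟩
    rw [hp]
    simp only [map_add, aeval_monomial, algebraMap_int_eq, eq_intCast, pow_zero, mul_one, pow_one]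
    exact h
  have hc : ∀ n, p.coeff n = 0 := by intro n; rw [h0]; simp
  have e0 := hc 0
  have e1 := hc 1
  have e2 := hc 2
  have e3 := hc 3
  have e5 := hc 5
  have e6 := hc 6
  simp only [hp, coeff_add, coeff_monomial] at e0 e1 e2 e3 e5 e6
  norm_num at e0 e1 e2 e3 e5 e6
  exact ⟨e0, e1, e2, e3, e5, e6⟩

theorem wedge {τ : ℝ} (hτ : Transcendental ℤ τ) (d e : Fin 4 → ℤ)
    (h : lam τ d * mu τ e - lam τ e * mu τ d = 0) :
    ∀ i j, d i * e j = d j * e i := by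
  have key := coeffs_zero hτ (d 0 * e 1 - d 1 * e 0) (-(d 1 * e 2 - d 2 * e 1))
    (-(d 1 * e 3 - d 3 * e 1)) (d 0 * e 2 - d 2 * e 0)
    ((d 0 * e 3 - d 3 * e 0) - (d 2 * e 3 - d 3 * e 2)) (d 2 * e 3 - d 3 * e 2) (by
      rw [← h]
      simp only [lam, mu]
      push_cast
      ring)
  obtain ⟨k01, k12, k13, k02, k03, k23⟩ := key
  have a01 : d 0 * e 1 = d 1 * e 0 := by linarith
  have a12 : d 1 * e 2 = d 2 * e 1 := by linarith
  have a13 : d 1 * e 3 = d 3 * e 1 := by linarith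
  have a02 : d 0 * e 2 = d 2 * e 0 := by linarith
  have a23 : d 2 * e 3 = d 3 * e 2 := by linarith
  have a03 : d 0 * e 3 = d 3 * e 0 := by linarith
  intro i j
  fin_cases i <;> fin_cases j <;> simp <;> linarith

theorem lam_inj {τ : ℝ} (hτ : Transcendental ℤ τ) (d : Fin 4 → ℤ) (h : lam τ d = 0) :
    d 0 = 0 ∧ d 2 = 0 ∧ d 3 = 0 := by
  have := coeffs_zero hτ (d 0) (d 2) (d 3) 0 0 0 (by
    rw [← h]; simp only [lam]; push_cast; ring)
  exact ⟨this.1, this.2.1, this.2.2.1⟩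

theorem mu_inj {τ : ℝ} (hτ : Transcendental ℤ τ) (d : Fin 4 → ℤ) (h : mu τ d = 0) :
    d 1 = 0 := by
  have := coeffs_zero hτ (d 1) 0 0 (d 2) (d 3) 0 (by
    rw [← h]; simp only [mu]; push_cast; ring)
  exact this.1

/-- integer data of a light ray: `k = (x, y, z, a, b)` -/
def vA (k : Fin 5 → ℤ) : Fin 4 → ℤ := ![k 0, k 1, k 2, -(k 0 ^ 2 + k 1 ^ 2)]
def vC (k : Fin 5 → ℤ) : Fin 4 → ℤ :=
  ![k 3, k 4, k 3 ^ 2 + k 4 ^ 2, k 2 - 2 * k 0 * k 3 - 2 * k 1 * k 4]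

/-- vectors with pairwise vanishing minors are multiples of one vector -/
theorem exists_common {n m : ℕ} (v : Fin n → Fin m → ℝ)
    (h : ∀ a b i j, v a i * v b j = v a j * v b i) :
    ∃ (w : Fin m → ℝ) (c : Fin n → ℝ), ∀ a i, v a i = c a * w i := by
  by_cases h0 : ∀ a i, v a i = 0
  · exact ⟨0, 0, fun a i => by simp [h0 a i]⟩
  · push Not at h0
    obtain ⟨a0, i0, h0⟩ := h0
    refine ⟨v a0, fun a => v a i0 / v a0 i0, fun a i => ?_⟩
    field_simp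
    have := h a a0 i i0
    linarith

/-- the algebraic core -/
theorem core (x y z a b α γ α' γ' w0 w1 w2 w3 x2 y2 z2 a2 b2 x3 y3 z3 a3 b3 : ℝ)
    (hx2 : x2 - x = α * w0) (hy2 : y2 - y = α * w1) (hz2 : z2 - z = α * w2)
    (hq2 : -(x2 ^ 2 + y2 ^ 2) - (-(x ^ 2 + y ^ 2)) = α * w3)
    (ha2 : a2 - a = γ * w0) (hb2 : b2 - b = γ * w1)
    (hc2 : (a2 ^ 2 + b2 ^ 2) - (a ^ 2 + b ^ 2) = γ * w2)
    (hr2 : (z2 - 2 * x2 * a2 - 2 * y2 * b2) - (z - 2 * x * a - 2 * y * b) = γ * w3)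
    (hx3 : x3 - x = α' * w0) (hy3 : y3 - y = α' * w1) (hz3 : z3 - z = α' * w2)
    (hq3 : -(x3 ^ 2 + y3 ^ 2) - (-(x ^ 2 + y ^ 2)) = α' * w3)
    (ha3 : a3 - a = γ' * w0) (hb3 : b3 - b = γ' * w1)
    (hc3 : (a3 ^ 2 + b3 ^ 2) - (a ^ 2 + b ^ 2) = γ' * w2)
    (hr3 : (z3 - 2 * x3 * a3 - 2 * y3 * b3) - (z - 2 * x * a - 2 * y * b) = γ' * w3)
    (h1 : ¬ (α = 0 ∧ γ = 0)) (h2 : ¬ (α' = 0 ∧ γ' = 0)) (h3 : ¬ (α = α' ∧ γ = γ')) :
    w0 = 0 ∧ w1 = 0 ∧ w2 = 0 ∧ w3 = 0 := by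
  -- abbreviations
  set P : ℝ := -2 * (x * w0 + y * w1) with hP
  set R : ℝ := w2 - 2 * (a * w0 + b * w1) with hR
  set S : ℝ := w0 ^ 2 + w1 ^ 2 with hS
  have main : ∀ α γ x2 y2 z2 a2 b2 : ℝ, x2 - x = α * w0 → y2 - y = α * w1 → z2 - z = α * w2 →
      -(x2 ^ 2 + y2 ^ 2) - (-(x ^ 2 + y ^ 2)) = α * w3 →
      a2 - a = γ * w0 → b2 - b = γ * w1 → (a2 ^ 2 + b2 ^ 2) - (a ^ 2 + b ^ 2) = γ * w2 →
      (z2 - 2 * x2 * a2 - 2 * y2 * b2) - (z - 2 * x * a - 2 * y * b) = γ * w3 →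
      ¬ (α = 0 ∧ γ = 0) → P - α * S - w3 = 0 ∧ R - γ * S = 0 := by
    intro α γ x2 y2 z2 a2 b2 hx hy hz hq ha hb hc hr hne
    have ex : x2 = x + α * w0 := by linarith
    have ey : y2 = y + α * w1 := by linarith
    have ez : z2 = z + α * w2 := by linarith
    have ea : a2 = a + γ * w0 := by linarith
    have eb : b2 = b + γ * w1 := by linarith
    subst ex ey ez ea eb
    have E1 : α * (P - α * S - w3) = 0 := by rw [hP, hS]; linarith
    have E2 : γ * (R - γ * S) = 0 := by rw [hR, hS]; linarith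
    have E3 : α * (R - γ * S) + γ * (P - α * S - w3) = 0 := by rw [hP, hR, hS]; linarith
    by_cases hα : α = 0
    · have hγ : γ ≠ 0 := fun h => hne ⟨hα, h⟩
      have e2 : R - γ * S = 0 := by
        rcases mul_eq_zero.mp E2 with h | h
        · exact absurd h hγ
        · exact h
      refine ⟨?_, e2⟩
      rw [e2, mul_zero, zero_add] at E3
      rcases mul_eq_zero.mp E3 with h | h
      · exact absurd h hγ
      · exact h
    · have e1 : P - α * S - w3 = 0 := by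
        rcases mul_eq_zero.mp E1 with h | h
        · exact absurd h hα
        · exact h
      refine ⟨e1, ?_⟩
      rw [e1, mul_zero, add_zero] at E3
      rcases mul_eq_zero.mp E3 with h | h
      · exact absurd h hα
      · exact h
  obtain ⟨A1, A2⟩ := main α γ x2 y2 z2 a2 b2 hx2 hy2 hz2 hq2 ha2 hb2 hc2 hr2 h1
  obtain ⟨B1, B2⟩ := main α' γ' x3 y3 z3 a3 b3 hx3 hy3 hz3 hq3 ha3 hb3 hc3 hr3 h2
  have hS0 : S = 0 := by
    by_contra hne
    apply h3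
    constructor
    · have : (α - α') * S = 0 := by linarith
      rcases mul_eq_zero.mp this with h | h
      · linarith
      · exact absurd h hne
    · have : (γ - γ') * S = 0 := by linarith
      rcases mul_eq_zero.mp this with h | h
      · linarith
      · exact absurd h hne
  have hw0 : w0 = 0 := by
    have := sq_nonneg w0
    have := sq_nonneg w1
    have : w0 ^ 2 = 0 := by rw [hS] at hS0; linarith
    exact pow_eq_zero_iff (two_ne_zero) |>.mp this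
  have hw1 : w1 = 0 := by
    have := sq_nonneg w0
    have := sq_nonneg w1
    have : w1 ^ 2 = 0 := by rw [hS] at hS0; linarith
    exact pow_eq_zero_iff (two_ne_zero) |>.mp this
  refine ⟨hw0, hw1, ?_, ?_⟩
  · rw [hS0, hR, hw0, hw1] at A2; linarith
  · rw [hS0, hP, hw0, hw1] at A1; linarith

end Pool.Agent.H680R3.LP
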