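import Mathlib
import Pool.Agent.H680R3.LP1

set_option autoImplicit false

namespace Pool.Agent.H680R3.LP

open scoped RealInnerProductSpace

noncomputable def mk3 (t y z : ℝ) : E3 := !₂[t, y, z]

@[simp] theorem mk3_0 (t y z : ℝ) : (mk3 t y z) 0 = t := rfl
@[simp] theorem mk3_1 (t y z : ℝ) : (mk3 t y z) 1 = y := rfl
@[simp] theorem mk3_2 (t y z : ℝ) : (mk3 t y z) 2 = z := rfl

theorem mk3_ext {u v : E3} (h0 : u 0 = v 0) (h1 : u 1 = v 1) (h2 : u 2 = v 2) : u = v := by
  ext i
  fin_cases i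
  · exact h0
  · exact h1
  · exact h2

noncomputable def base (τ : ℝ) (k : Fin 5 → ℤ) : E3 := mk3 0 (lam τ (vA k)) (mu τ (vA k))
noncomputable def dir (τ : ℝ) (k : Fin 5 → ℤ) : E3 := mk3 1 (lam τ (vC k)) (mu τ (vC k))
noncomputable def ray (τ : ℝ) (k : Fin 5 → ℤ) : AffineSubspace ℝ E3 :=
  AffineSubspace.mk' (base τ k) (Submodule.span ℝ {dir τ k})

/-- the integer points of the lifted Minkowski space -/
noncomputable def Phi (τ : ℝ) (t x y z : ℤ) : E3 :=
  mk3 t (x + τ * z + τ ^ 2 * (t * z - x ^ 2 - y ^ 2))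
    (y + τ ^ 3 * z + τ ^ 5 * (t * z - x ^ 2 - y ^ 2))

theorem mem_ray (τ : ℝ) (k : Fin 5 → ℤ) (u : E3) :
    u ∈ ray τ k ↔ ∃ c : ℝ, u = base τ k + c • dir τ k := by
  unfold ray
  rw [AffineSubspace.mem_mk', Submodule.mem_span_singleton]
  constructor
  · rintro ⟨c, hc⟩
    refine ⟨c, ?_⟩
    rw [hc, vsub_eq_sub]
    abel
  · rintro ⟨c, hc⟩
    refine ⟨c, ?_⟩
    rw [hc, vsub_eq_sub]
    abel

theorem Phi_mem_ray (τ : ℝ) (k : Fin 5 → ℤ) (t : ℤ) :
    Phi τ t (k 0 + t * k 3) (k 1 + t * k 4) (k 2 + t * (k 3 ^ 2 + k 4 ^ 2)) ∈ ray τ k := by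
  rw [mem_ray]
  refine ⟨t, ?_⟩
  apply mk3_ext
  · simp [Phi, base, dir]
  · simp [Phi, base, dir, lam, vA, vC]
    ring
  · simp [Phi, base, dir, mu, vA, vC]
    ring

theorem lam_sub (τ : ℝ) (d e : Fin 4 → ℤ) : lam τ (d - e) = lam τ d - lam τ e := by
  simp [lam]; ring

theorem mu_sub (τ : ℝ) (d e : Fin 4 → ℤ) : mu τ (d - e) = mu τ d - mu τ e := by
  simp [mu]; ring

theorem vec_eq {τ : ℝ} (hτ : Transcendental ℤ τ) {d e : Fin 4 → ℤ} (h1 : lam τ d = lam τ e)
    (h2 : mu τ d = mu τ e) : d = e := by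
  have a := lam_inj hτ (d - e) (by rw [lam_sub]; linarith)
  have b := mu_inj hτ (d - e) (by rw [mu_sub]; linarith)
  simp only [Pi.sub_apply] at a b
  funext i
  fin_cases i <;> simp <;> omega

theorem key_eq {k k' : Fin 5 → ℤ} (h1 : vA k = vA k') (h2 : vC k = vC k') : k = k' := by
  have a0 := congrFun h1 0
  have a1 := congrFun h1 1
  have a2 := congrFun h1 2
  have c0 := congrFun h2 0
  have c1 := congrFun h2 1
  simp [vA, vC] at a0 a1 a2 c0 c1
  funext i
  fin_cases i <;> simp <;> assumption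

theorem ray_inj {τ : ℝ} (hτ : Transcendental ℤ τ) {k k' : Fin 5 → ℤ}
    (h : ray τ k = ray τ k') : k = k' := by
  have hb : base τ k ∈ ray τ k' := by
    rw [← h, mem_ray]; exact ⟨0, by simp⟩
  have hd : base τ k + dir τ k ∈ ray τ k' := by
    rw [← h, mem_ray]; exact ⟨1, by simp⟩
  rw [mem_ray] at hb hd
  obtain ⟨c, hc⟩ := hb
  obtain ⟨e, he⟩ := hd
  have c0 : c = 0 := by
    have := congrArg (fun u : E3 => u 0) hc
    simp [base, dir] at this
    exact this.symm
  subst c0
  rw [zero_smul, add_zero] at hc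
  have e1 : e = 1 := by
    have := congrArg (fun u : E3 => u 0) he
    simp [base, dir] at this
    exact this.symm
  subst e1
  rw [one_smul, hc] at he
  have he' := add_left_cancel he
  have p1 := congrArg (fun u : E3 => u 1) hc
  have p2 := congrArg (fun u : E3 => u 2) hc
  have q1 := congrArg (fun u : E3 => u 1) he'
  have q2 := congrArg (fun u : E3 => u 2) he'
  simp [base, dir] at p1 p2 q1 q2
  exact key_eq (vec_eq hτ p1 p2) (vec_eq hτ q1 q2)

theorem det_zero (W : Submodule ℝ E3) (hW : Module.finrank ℝ W = 2) {p q r s u v : ℝ}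
    (h1 : mk3 1 p q ∈ W) (h2 : mk3 0 r s ∈ W) (h3 : mk3 0 u v ∈ W) : r * v - u * s = 0 := by
  by_contra hne
  have hli : LinearIndependent ℝ ![(⟨mk3 1 p q, h1⟩ : W), ⟨mk3 0 r s, h2⟩, ⟨mk3 0 u v, h3⟩] := by
    rw [Fintype.linearIndependent_iff]
    intro g hg
    rw [Fin.sum_univ_three] at hg
    simp only [Matrix.cons_val_zero, Matrix.cons_val_one, Matrix.cons_val] at hg
    have hg' := congrArg (fun x : W => (x : E3)) hg
    simp only [Submodule.coe_add, Submodule.coe_smul, Submodule.coe_zero] at hg'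
    have g0 := congrArg (fun x : E3 => x 0) hg'
    have g1 := congrArg (fun x : E3 => x 1) hg'
    have g2 := congrArg (fun x : E3 => x 2) hg'
    simp at g0 g1 g2
    rw [g0] at g1 g2
    simp only [zero_mul, zero_add] at g1 g2
    have k1 : g 1 * (r * v - u * s) = 0 := by linear_combination v * g1 - u * g2
    have k2 : g 2 * (r * v - u * s) = 0 := by linear_combination (-s) * g1 + r * g2
    have k1' : g 1 = 0 := by
      rcases mul_eq_zero.mp k1 with h | h
      · exact h
      · exact absurd h hne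
    have k2' : g 2 = 0 := by
      rcases mul_eq_zero.mp k2 with h | h
      · exact h
      · exact absurd h hne
    intro i
    fin_cases i
    · exact g0
    · exact k1'
    · exact k2'
  have := hli.fintype_card_le_finrank
  rw [hW, Fintype.card_fin] at this
  omega

theorem no_three {τ : ℝ} (hτ : Transcendental ℤ τ) (k1 k2 k3 : Fin 5 → ℤ)
    (h12 : k1 ≠ k2) (h13 : k1 ≠ k3) (h23 : k2 ≠ k3) (π : AffineSubspace ℝ E3)
    (hπ : Module.finrank ℝ π.direction = 2) (l1 : ray τ k1 ≤ π) (l2 : ray τ k2 ≤ π)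
    (l3 : ray τ k3 ≤ π) : False := by
  have hbase : ∀ k, ray τ k ≤ π → base τ k ∈ π := by
    intro k hk
    apply hk
    rw [mem_ray]; exact ⟨0, by simp⟩
  have hdir : ∀ k, ray τ k ≤ π → dir τ k ∈ π.direction := by
    intro k hk
    have := AffineSubspace.direction_le hk
    apply this
    rw [ray, AffineSubspace.direction_mk']
    exact Submodule.mem_span_singleton_self _
  have hA : ∀ k, ray τ k ≤ π → mk3 0 (lam τ (vA k - vA k1)) (mu τ (vA k - vA k1)) ∈ π.direction := by
    intro k hk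
    have := AffineSubspace.vsub_mem_direction (hbase k hk) (hbase k1 l1)
    convert this using 1
    apply mk3_ext
    · simp [base]
    · simp [base, lam_sub]
    · simp [base, mu_sub]
  have hC : ∀ k, ray τ k ≤ π → mk3 0 (lam τ (vC k - vC k1)) (mu τ (vC k - vC k1)) ∈ π.direction := by
    intro k hk
    have := π.direction.sub_mem (hdir k hk) (hdir k1 l1)
    convert this using 1
    apply mk3_ext
    · simp [dir]
    · simp [dir, lam_sub]
    · simp [dir, mu_sub]
  set V : Fin 4 → (Fin 4 → ℤ) := ![vA k2 - vA k1, vC k2 - vC k1, vA k3 - vA k1, vC k3 - vC k1]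
    with hV
  have hVm : ∀ a, mk3 0 (lam τ (V a)) (mu τ (V a)) ∈ π.direction := by
    intro a
    fin_cases a
    · exact hA k2 l2
    · exact hC k2 l2
    · exact hA k3 l3
    · exact hC k3 l3
  have hW : ∀ a b i j, V a i * V b j = V a j * V b i := by
    intro a b
    apply wedge hτ
    exact det_zero π.direction hπ (hdir k1 l1) (hVm a) (hVm b)
  obtain ⟨w, c, hwc⟩ := exists_common (fun a i => (V a i : ℝ)) (by
    intro a b i j
    exact_mod_cast hW a b i j)
  have f := fun a i => hwc a i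
  have eqs0 := f 0
  have eqs1 := f 1
  have eqs2 := f 2
  have eqs3 := f 3
  have hz : ∀ k : Fin 5 → ℤ, (∀ i, ((vA k - vA k1) i : ℤ) = 0) → (∀ i, ((vC k - vC k1) i : ℤ) = 0) →
      k1 = k := by
    intro k h1 h2
    apply key_eq
    · funext i; have := h1 i; simp only [Pi.sub_apply] at this; omega
    · funext i; have := h2 i; simp only [Pi.sub_apply] at this; omega
  have g1 : ¬ (c 0 = 0 ∧ c 1 = 0) := by
    rintro ⟨h0, h1⟩
    apply h12
    apply hz
    · intro i
      have := eqs0 i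
      rw [h0, zero_mul] at this
      exact_mod_cast this
    · intro i
      have := eqs1 i
      rw [h1, zero_mul] at this
      exact_mod_cast this
  have g2 : ¬ (c 2 = 0 ∧ c 3 = 0) := by
    rintro ⟨h0, h1⟩
    apply h13
    apply hz
    · intro i
      have := eqs2 i
      rw [h0, zero_mul] at this
      exact_mod_cast this
    · intro i
      have := eqs3 i
      rw [h1, zero_mul] at this
      exact_mod_cast this
  have g3 : ¬ (c 0 = c 2 ∧ c 1 = c 3) := by
    rintro ⟨h0, h1⟩
    apply h23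
    have e1 : ∀ i, V 0 i = V 2 i := by
      intro i
      have a := eqs0 i
      have b := eqs2 i
      rw [h0, ← b] at a
      exact_mod_cast a
    have e2 : ∀ i, V 1 i = V 3 i := by
      intro i
      have a := eqs1 i
      have b := eqs3 i
      rw [h1, ← b] at a
      exact_mod_cast a
    apply key_eq
    · funext i
      have := e1 i
      simp only [hV, Matrix.cons_val_zero, Matrix.cons_val, Pi.sub_apply] at this
      omega
    · funext i
      have := e2 i
      simp only [hV, Matrix.cons_val_one, Matrix.cons_val, Pi.sub_apply] at this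
      omega
  have r00 := eqs0 0
  have r01 := eqs0 1
  have r02 := eqs0 2
  have r03 := eqs0 3
  have r10 := eqs1 0
  have r11 := eqs1 1
  have r12 := eqs1 2
  have r13 := eqs1 3
  have r20 := eqs2 0
  have r21 := eqs2 1
  have r22 := eqs2 2
  have r23 := eqs2 3
  have r30 := eqs3 0
  have r31 := eqs3 1
  have r32 := eqs3 2
  have r33 := eqs3 3
  simp only [hV, vA, vC, Matrix.cons_val_zero, Matrix.cons_val_one, Matrix.cons_val,
    Pi.sub_apply] at r00 r01 r02 r03 r10 r11 r12 r13 r20 r21 r22 r23 r30 r31 r32 r33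
  push_cast at r00 r01 r02 r03 r10 r11 r12 r13 r20 r21 r22 r23 r30 r31 r32 r33
  have hcore := core (k1 0) (k1 1) (k1 2) (k1 3) (k1 4) (c 0) (c 1) (c 2) (c 3) (w 0) (w 1) (w 2)
    (w 3) (k2 0) (k2 1) (k2 2) (k2 3) (k2 4) (k3 0) (k3 1) (k3 2) (k3 3) (k3 4)
    r00 r01 r02 r03 r10 r11 r12 r13 r20 r21 r22 r23 r30 r31 r32 r33 g1 g2 g3
  obtain ⟨w0, w1, w2, w3⟩ := hcore
  have hw : ∀ i, w i = 0 := by
    intro i; fin_cases i
    · exact w0
    · exact w1
    · exact w2
    · exact w3
  apply h12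
  apply hz
  · intro i
    have := eqs0 i
    rw [hw i, mul_zero] at this
    exact_mod_cast this
  · intro i
    have := eqs1 i
    rw [hw i, mul_zero] at this
    exact_mod_cast this

end Pool.Agent.H680R3.LP
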