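import Mathlib
import Pool.Agent.H680R3.LP2

set_option autoImplicit false

namespace Pool.Agent.H680R3.LP

open Finset

def toK (p : ℕ × ℕ × ℕ × ℕ × ℕ) : Fin 5 → ℤ :=
  ![p.1, p.2.1, p.2.2.1, p.2.2.2.1, p.2.2.2.2]

theorem toK_inj : Function.Injective toK := by
  rintro ⟨a, b, c, d, e⟩ ⟨a', b', c', d', e'⟩ h
  have h0 := congrFun h 0
  have h1 := congrFun h 1
  have h2 := congrFun h 2
  have h3 := congrFun h 3
  have h4 := congrFun h 4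
  simp [toK] at h0 h1 h2 h3 h4
  simp [h0, h1, h2, h3, h4]

def box (ν H : ℕ) : Finset (ℕ × ℕ × ℕ × ℕ × ℕ) :=
  range (ν * H) ×ˢ range (ν * H) ×ˢ range (ν * H ^ 2) ×ˢ range H ×ˢ range H

theorem card_box (ν H : ℕ) : (box ν H).card = ν ^ 3 * H ^ 6 := by
  simp only [box, card_product, card_range]
  ring

def box4 (ν H : ℕ) : Finset (ℕ × ℕ × ℕ × ℕ) :=
  range ν ×ˢ range (2 * (ν * H)) ×ˢ range (2 * (ν * H)) ×ˢ range (3 * (ν * H ^ 2))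

theorem card_box4 (ν H : ℕ) : (box4 ν H).card = 12 * ν ^ 4 * H ^ 4 := by
  simp only [box4, card_product, card_range]
  ring

open Classical in
noncomputable def LL (τ : ℝ) (ν H : ℕ) : Finset (AffineSubspace ℝ E3) :=
  (box ν H).image (fun p => ray τ (toK p))

open Classical in
noncomputable def PP (τ : ℝ) (ν H : ℕ) : Finset E3 :=
  (box4 ν H).image (fun p => Phi τ p.1 p.2.1 p.2.2.1 p.2.2.2)

theorem card_LL (τ : ℝ) (ν H : ℕ) : (LL τ ν H).card ≤ ν ^ 3 * H ^ 6 := by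
  classical
  rw [← card_box]; exact card_image_le

theorem card_PP (τ : ℝ) (ν H : ℕ) : (PP τ ν H).card ≤ 12 * ν ^ 4 * H ^ 4 := by
  classical
  rw [← card_box4]; exact card_image_le

theorem incidences {τ : ℝ} (hτ : Transcendental ℤ τ) (ν H : ℕ) :
    ν ^ 4 * H ^ 6 ≤ {x : E3 × AffineSubspace ℝ E3 |
      x.1 ∈ PP τ ν H ∧ x.2 ∈ LL τ ν H ∧ x.1 ∈ x.2}.ncard := by
  classical
  set f : (ℕ × ℕ × ℕ × ℕ × ℕ) × ℕ → E3 × AffineSubspace ℝ E3 := fun q =>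
    (Phi τ (q.2 : ℤ) (toK q.1 0 + q.2 * toK q.1 3) (toK q.1 1 + q.2 * toK q.1 4)
      (toK q.1 2 + q.2 * (toK q.1 3 ^ 2 + toK q.1 4 ^ 2)), ray τ (toK q.1)) with hf
  have hinj : Function.Injective f := by
    rintro ⟨p, t⟩ ⟨p', t'⟩ h
    simp only [hf, Prod.mk.injEq] at h
    obtain ⟨h1, h2⟩ := h
    have hp := toK_inj (ray_inj hτ h2)
    have h0 := congrArg (fun u : E3 => u 0) h1
    simp [Phi] at h0
    rw [hp, h0]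
  have hfin : {x : E3 × AffineSubspace ℝ E3 |
      x.1 ∈ PP τ ν H ∧ x.2 ∈ LL τ ν H ∧ x.1 ∈ x.2}.Finite := by
    apply Set.Finite.subset (PP τ ν H ×ˢ LL τ ν H).finite_toSet
    rintro x ⟨h1, h2, _⟩
    rw [mem_coe, mem_product]
    exact ⟨h1, h2⟩
  have hsub : (((box ν H ×ˢ range ν).image f : Finset _) : Set (E3 × AffineSubspace ℝ E3)) ⊆
      {x : E3 × AffineSubspace ℝ E3 | x.1 ∈ PP τ ν H ∧ x.2 ∈ LL τ ν H ∧ x.1 ∈ x.2} := by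
    intro y hy
    rw [mem_coe, mem_image] at hy
    obtain ⟨⟨⟨x, y, z, a, b⟩, t⟩, hq, rfl⟩ := hy
    simp only [box, mem_product, mem_range] at hq
    obtain ⟨⟨hx, hy, hz, ha, hb⟩, ht⟩ := hq
    refine ⟨?_, ?_, ?_⟩
    · rw [PP, mem_image]
      refine ⟨(t, x + t * a, y + t * b, z + t * (a ^ 2 + b ^ 2)), ?_, ?_⟩
      · simp only [box4, mem_product, mem_range]
        refine ⟨ht, ?_, ?_, ?_⟩
        · have : t * a ≤ ν * H := Nat.mul_le_mul ht.le ha.le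
          omega
        · have : t * b ≤ ν * H := Nat.mul_le_mul ht.le hb.le
          omega
        · have h1 : a ^ 2 + b ^ 2 ≤ 2 * H ^ 2 := by
            have h1 := Nat.pow_le_pow_left ha.le 2
            have h2 := Nat.pow_le_pow_left hb.le 2
            omega
          have h2 : t * (a ^ 2 + b ^ 2) ≤ ν * (2 * H ^ 2) := Nat.mul_le_mul ht.le h1
          have h3 : ν * (2 * H ^ 2) = 2 * (ν * H ^ 2) := by ring
          omega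
      · simp [hf, toK]
    · rw [LL, mem_image]
      refine ⟨(x, y, z, a, b), ?_, rfl⟩
      simp only [box, mem_product, mem_range]
      exact ⟨hx, hy, hz, ha, hb⟩
    · exact Phi_mem_ray τ _ _
  have h1 := Set.ncard_le_ncard hsub hfin
  rw [Set.ncard_coe_finset, card_image_of_injective _ hinj, card_product, card_box, card_range] at h1
  calc ν ^ 4 * H ^ 6 = ν ^ 3 * H ^ 6 * ν := by ring
    _ ≤ _ := h1

theorem plane_le {τ : ℝ} (hτ : Transcendental ℤ τ) (ν H : ℕ) (π : AffineSubspace ℝ E3)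
    (hπ : Module.finrank ℝ π.direction = 2) :
    {l : AffineSubspace ℝ E3 | l ∈ LL τ ν H ∧ l ≤ π}.ncard ≤ 2 := by
  classical
  by_contra hlt
  push Not at hlt
  have hfin : {l : AffineSubspace ℝ E3 | l ∈ LL τ ν H ∧ l ≤ π}.Finite := by
    apply Set.Finite.subset (LL τ ν H).finite_toSet
    rintro x ⟨h1, _⟩
    exact h1
  rw [Set.two_lt_ncard_iff hfin] at hlt
  obtain ⟨a, b, c, ⟨ha, ha'⟩, ⟨hb, hb'⟩, ⟨hc, hc'⟩, hab, hac, hbc⟩ := hlt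
  rw [LL, mem_image] at ha hb hc
  obtain ⟨p, _, rfl⟩ := ha
  obtain ⟨q, _, rfl⟩ := hb
  obtain ⟨r, _, rfl⟩ := hc
  exact no_three hτ _ _ _ (fun h => hab (by simp only [h])) (fun h => hac (by simp only [h]))
    (fun h => hbc (by simp only [h])) π hπ ha' hb' hc'

theorem line_dim {τ : ℝ} (ν H : ℕ) :
    ∀ l ∈ LL τ ν H, Module.finrank ℝ l.direction = 1 := by
  classical
  intro l hl
  rw [LL, mem_image] at hl
  obtain ⟨p, _, rfl⟩ := hl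
  rw [ray, AffineSubspace.direction_mk']
  apply finrank_span_singleton
  intro h
  have := congrArg (fun u : E3 => u 0) h
  simp [dir] at this

/-- numbers -/
theorem numbers (c ν K H : ℕ) (hc : 1 ≤ c) (eν : ν = 3 * c) (eK : K = 54 * c * ν ^ 2)
    (eH : H = K ^ 3) (M N : ℝ) (hM0 : 0 ≤ M) (hN0 : 0 ≤ N)
    (hM : M ≤ 12 * (ν : ℝ) ^ 4 * (H : ℝ) ^ 4) (hN : N ≤ (ν : ℝ) ^ 3 * (H : ℝ) ^ 6) :
    (c : ℝ) * (M ^ ((2 : ℝ) / 3) * N ^ ((1 : ℝ) / 2) + M + N) < (ν : ℝ) ^ 4 * (H : ℝ) ^ 6 := by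
  have hcR : (1 : ℝ) ≤ c := by exact_mod_cast hc
  have hν : (ν : ℝ) = 3 * c := by rw [eν]; push_cast; ring
  have hν1 : (1 : ℝ) ≤ ν := by rw [hν]; linarith
  have hK : (K : ℝ) = 54 * c * (ν : ℝ) ^ 2 := by rw [eK]; push_cast; ring
  have hK1 : (54 : ℝ) * c ≤ K := by
    rw [hK]
    have : (1 : ℝ) ≤ (ν : ℝ) ^ 2 := one_le_pow₀ hν1
    nlinarith
  have hK1' : (1 : ℝ) ≤ K := by linarith
  have hH : (H : ℝ) = (K : ℝ) ^ 3 := by rw [eH]; push_cast; ring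
  rw [hH] at hM hN ⊢
  have hM' : M ≤ (3 * (ν : ℝ) ^ 2 * (K : ℝ) ^ 4) ^ 3 := by
    refine hM.trans ?_
    have e : (3 * (ν : ℝ) ^ 2 * (K : ℝ) ^ 4) ^ 3 = 27 * ν ^ 2 * (ν ^ 4 * (K ^ 3) ^ 4) := by ring
    have e2 : 12 * (ν : ℝ) ^ 4 * ((K : ℝ) ^ 3) ^ 4 = 12 * (ν ^ 4 * (K ^ 3) ^ 4) := by ring
    rw [e, e2]
    apply mul_le_mul_of_nonneg_right _ (by positivity)
    have : (1 : ℝ) ≤ (ν : ℝ) ^ 2 := one_le_pow₀ hν1
    linarith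
  have hN' : N ≤ ((ν : ℝ) ^ 2 * (K : ℝ) ^ 9) ^ 2 := by
    refine hN.trans ?_
    have e : ((ν : ℝ) ^ 2 * (K : ℝ) ^ 9) ^ 2 = ν * (ν ^ 3 * (K ^ 3) ^ 6) := by ring
    rw [e]
    have : 0 ≤ (ν : ℝ) ^ 3 * ((K : ℝ) ^ 3) ^ 6 := by positivity
    nlinarith
  have hM2 : M ^ ((2 : ℝ) / 3) ≤ (3 * (ν : ℝ) ^ 2 * (K : ℝ) ^ 4) ^ 2 := by
    have hb : (0 : ℝ) ≤ 3 * (ν : ℝ) ^ 2 * (K : ℝ) ^ 4 := by positivity
    calc M ^ ((2 : ℝ) / 3) ≤ ((3 * (ν : ℝ) ^ 2 * (K : ℝ) ^ 4) ^ 3) ^ ((2 : ℝ) / 3) :=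
          Real.rpow_le_rpow hM0 hM' (by norm_num)
      _ = (3 * (ν : ℝ) ^ 2 * (K : ℝ) ^ 4) ^ 2 := by
          rw [← Real.rpow_natCast _ 3, ← Real.rpow_mul hb, ← Real.rpow_natCast _ 2]
          norm_num
  have hN2 : N ^ ((1 : ℝ) / 2) ≤ (ν : ℝ) ^ 2 * (K : ℝ) ^ 9 := by
    have hb : (0 : ℝ) ≤ (ν : ℝ) ^ 2 * (K : ℝ) ^ 9 := by positivity
    calc N ^ ((1 : ℝ) / 2) ≤ (((ν : ℝ) ^ 2 * (K : ℝ) ^ 9) ^ 2) ^ ((1 : ℝ) / 2) :=
          Real.rpow_le_rpow hN0 hN' (by norm_num)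
      _ = (ν : ℝ) ^ 2 * (K : ℝ) ^ 9 := by
          rw [← Real.rpow_natCast _ 2, ← Real.rpow_mul hb]
          norm_num
  -- the three terms
  set X : ℝ := (ν : ℝ) ^ 4 * ((K : ℝ) ^ 3) ^ 6 with hX
  have hXpos : 0 < X := by positivity
  have T1 : (c : ℝ) * (M ^ ((2 : ℝ) / 3) * N ^ ((1 : ℝ) / 2)) ≤ X / 6 := by
    have h1 : M ^ ((2 : ℝ) / 3) * N ^ ((1 : ℝ) / 2) ≤
        (3 * (ν : ℝ) ^ 2 * (K : ℝ) ^ 4) ^ 2 * ((ν : ℝ) ^ 2 * (K : ℝ) ^ 9) :=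
      mul_le_mul hM2 hN2 (Real.rpow_nonneg hN0 _) (by positivity)
    calc (c : ℝ) * (M ^ ((2 : ℝ) / 3) * N ^ ((1 : ℝ) / 2))
        ≤ c * ((3 * (ν : ℝ) ^ 2 * (K : ℝ) ^ 4) ^ 2 * ((ν : ℝ) ^ 2 * (K : ℝ) ^ 9)) :=
          mul_le_mul_of_nonneg_left h1 (by positivity)
      _ = (54 * c * (ν : ℝ) ^ 2) * (ν ^ 4 * K ^ 17) / 6 := by ring
      _ = X / 6 := by rw [← hK, hX]; ring
  have T2 : (c : ℝ) * M ≤ X / 6 := by
    have h2 : (72 : ℝ) * c ≤ K ^ 6 := by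
      have h3 : (K : ℝ) ^ 2 ≤ K ^ 6 := pow_le_pow_right₀ hK1' (by norm_num)
      have h4 : (54 * (c : ℝ)) ^ 2 ≤ K ^ 2 := pow_le_pow_left₀ (by positivity) hK1 2
      nlinarith
    calc (c : ℝ) * M ≤ c * (12 * (ν : ℝ) ^ 4 * ((K : ℝ) ^ 3) ^ 4) :=
          mul_le_mul_of_nonneg_left hM (by positivity)
      _ = (72 * c) * ((ν : ℝ) ^ 4 * ((K : ℝ) ^ 3) ^ 4) / 6 := by ring
      _ ≤ (K ^ 6) * ((ν : ℝ) ^ 4 * ((K : ℝ) ^ 3) ^ 4) / 6 := by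
          have : (0 : ℝ) ≤ (ν : ℝ) ^ 4 * ((K : ℝ) ^ 3) ^ 4 := by positivity
          have := mul_le_mul_of_nonneg_right h2 this
          linarith
      _ = X / 6 := by rw [hX]; ring
  have T3 : (c : ℝ) * N ≤ X / 3 := by
    calc (c : ℝ) * N ≤ c * ((ν : ℝ) ^ 3 * ((K : ℝ) ^ 3) ^ 6) :=
          mul_le_mul_of_nonneg_left hN (by positivity)
      _ = (3 * c) * ((ν : ℝ) ^ 3 * ((K : ℝ) ^ 3) ^ 6) / 3 := by ring
      _ = X / 3 := by rw [← hν, hX]; ring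
  have : (c : ℝ) * (M ^ ((2 : ℝ) / 3) * N ^ ((1 : ℝ) / 2) + M + N) =
      c * (M ^ ((2 : ℝ) / 3) * N ^ ((1 : ℝ) / 2)) + c * M + c * N := by ring
  rw [this]
  linarith

/-- the frozen statement fails for `s = 2` -/
theorem final :
    ¬ (∃ C : ℝ, ∀ (P : Finset (EuclideanSpace ℝ (Fin 3)))
      (L : Finset (AffineSubspace ℝ (EuclideanSpace ℝ (Fin 3)))),
      (∀ l ∈ L, Module.finrank ℝ l.direction = 1) →
      (∀ π : AffineSubspace ℝ (EuclideanSpace ℝ (Fin 3)),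
          Module.finrank ℝ π.direction = 2 →
          {l : AffineSubspace ℝ (EuclideanSpace ℝ (Fin 3)) | l ∈ L ∧ l ≤ π}.ncard ≤ 2) →
      (({x : EuclideanSpace ℝ (Fin 3) × AffineSubspace ℝ (EuclideanSpace ℝ (Fin 3)) |
          x.1 ∈ P ∧ x.2 ∈ L ∧ x.1 ∈ x.2}.ncard : ℕ) : ℝ) ≤
        C * ((P.card : ℝ) ^ ((2 : ℝ) / 3) * (L.card : ℝ) ^ ((1 : ℝ) / 2)
          + (P.card : ℝ) + (L.card : ℝ))) := by
  rintro ⟨C, hC⟩
  obtain ⟨c0, hc0⟩ := exists_nat_ge C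
  obtain ⟨c, hc⟩ : ∃ c : ℕ, c = c0 + 1 := ⟨_, rfl⟩
  obtain ⟨τ, hτ⟩ : ∃ τ : ℝ, Transcendental ℤ τ :=
    ⟨liouvilleNumber (2 : ℕ), transcendental_liouvilleNumber le_rfl⟩
  obtain ⟨ν, hν⟩ : ∃ ν : ℕ, ν = 3 * c := ⟨_, rfl⟩
  obtain ⟨K, hK⟩ : ∃ K : ℕ, K = 54 * c * ν ^ 2 := ⟨_, rfl⟩
  obtain ⟨H, hH⟩ : ∃ H : ℕ, H = K ^ 3 := ⟨_, rfl⟩
  have h := hC (PP τ ν H) (LL τ ν H) (line_dim ν H) (fun π hπ => plane_le hτ ν H π hπ)
  have h1 : ((ν ^ 4 * H ^ 6 : ℕ) : ℝ) ≤ (({x : E3 × AffineSubspace ℝ E3 |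
      x.1 ∈ PP τ ν H ∧ x.2 ∈ LL τ ν H ∧ x.1 ∈ x.2}.ncard : ℕ) : ℝ) := by
    exact_mod_cast incidences hτ ν H
  have h2 := numbers c ν K H (by omega) hν hK hH ((PP τ ν H).card : ℝ) ((LL τ ν H).card : ℝ) (by positivity)
    (by positivity) (by exact_mod_cast card_PP τ ν H) (by exact_mod_cast card_LL τ ν H)
  have h3 : C * (((PP τ ν H).card : ℝ) ^ ((2 : ℝ) / 3) * ((LL τ ν H).card : ℝ) ^ ((1 : ℝ) / 2)
      + ((PP τ ν H).card : ℝ) + ((LL τ ν H).card : ℝ)) ≤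
      c * (((PP τ ν H).card : ℝ) ^ ((2 : ℝ) / 3) * ((LL τ ν H).card : ℝ) ^ ((1 : ℝ) / 2)
      + ((PP τ ν H).card : ℝ) + ((LL τ ν H).card : ℝ)) := by
    apply mul_le_mul_of_nonneg_right
    · rw [hc]; push_cast; linarith
    · positivity
  push_cast at h1 h2
  linarith

end Pool.Agent.H680R3.LP
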